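import Pool.Agent.U705.RC.Fill

/-!
# Project RC, package BAD
-/

open Pool.Agent.R795.Min Pool.Agent.U705.RC

set_option linter.unusedSectionVars false

namespace Pool.Agent.U875.RC.Bad

section counts

variable {A : Type} [DecidableEq A]

theorem count_step (μ : Multiset A) (z w x : A) (hwz : w ≠ z) :
    (w ::ₘ μ.erase z).count x =
      if x = w then μ.count w + 1 else if x = z then μ.count z - 1 else μ.count x := by
  rw [Multiset.count_cons]
  by_cases h1 : x = w
  · subst h1
    rw [Multiset.count_erase_of_ne hwz]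
    simp
  · by_cases h2 : x = z
    · subst h2
      rw [Multiset.count_erase_self]
      simp [h1]
    · rw [Multiset.count_erase_of_ne h2]
      simp [h1, h2]

theorem card_step {μ : Multiset A} {z w : A} (hz : z ∈ μ) :
    Multiset.card (w ::ₘ μ.erase z) = Multiset.card μ := by
  rw [Multiset.card_cons]
  exact Multiset.card_erase_add_one hz

theorem toFinset_step {μ : Multiset A} {z w : A} (hz : 2 ≤ μ.count z) (hw : w ∈ μ) (hwz : w ≠ z) :
    (w ::ₘ μ.erase z).toFinset = μ.toFinset := by
  ext x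
  rw [Multiset.mem_toFinset, Multiset.mem_toFinset, ← Multiset.count_pos, ← Multiset.count_pos,
    count_step μ z w x hwz]
  have hw' : 0 < μ.count w := Multiset.count_pos.2 hw
  split_ifs with h1 h2
  · subst h1; omega
  · subst h2; omega
  · rfl

theorem val_step {μ : Multiset A} {z w : A} {s1 : List A} (hz : 8 ≤ μ.count z) (hw : w ∈ μ)
    (hwz : w ≠ z) (hn : s1.Nodup) (h : ∀ x, x ∈ s1 ↔ μ.count x = 1 ∧ x ≠ w) :
    Val (w ::ₘ μ.erase z) s1 := by
  refine ⟨hn, fun x => ?_⟩
  rw [h x, count_step μ z w x hwz]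
  have hw' : 0 < μ.count w := Multiset.count_pos.2 hw
  split_ifs with h1 h2
  · subst h1
    constructor
    · rintro ⟨_, h⟩; exact absurd rfl h
    · intro h; omega
  · subst h2
    constructor
    · rintro ⟨h, _⟩; omega
    · intro h; omega
  · simp [h1]

theorem val_perm {μ : Multiset A} {s s' : List A} (h : Val μ s) (h' : Val μ s') : s.Perm s' :=
  (List.perm_ext_iff_of_nodup h.1 h'.1).2 fun x => by rw [h.2 x, h'.2 x]

theorem val_nil {μ : Multiset A} : Val μ [] ↔ ∀ x, μ.count x ≠ 1 := by
  constructor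
  · intro h x hx
    exact absurd ((h.2 x).2 hx) (by simp)
  · intro h
    exact ⟨List.nodup_nil, fun x => ⟨fun hx => absurd hx (by simp), fun hx => absurd hx (h x)⟩⟩

end counts

/-- the step at the first letter -/
def StepL {A B : Type} [DecidableEq A] (N : ℕ) (F : Multiset A → List A → B) : Prop :=
  ∀ (μ : Multiset A) (s : List A) (z w : A), Multiset.card μ = N → Val μ s → 8 ≤ μ.count z →
    w ∈ μ → w ≠ z → (w ∉ s ∨ ∃ s', s = w :: s') →
    ∃ s0, Val (w ::ₘ μ.erase z) s0 ∧ F μ s = F (w ::ₘ μ.erase z) s0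

section conclusion

variable {A B : Type} [DecidableEq A] [Fintype A] {N : ℕ} {F : Multiset A → List A → B}

theorem big (hN : 10 * Fintype.card A < N) (μ : Multiset A) (hμ : Multiset.card μ = N) :
    ∃ z, 10 ≤ μ.count z := by
  by_contra hc
  push Not at hc
  have h1 : ∑ a ∈ μ.toFinset, μ.count a = Multiset.card μ := Multiset.toFinset_sum_count_eq μ
  have h2 : ∑ a ∈ μ.toFinset, μ.count a ≤ μ.toFinset.card • 9 :=
    Finset.sum_le_card_nsmul _ _ _ fun x _ => by have := hc x; omega
  have h3 : μ.toFinset.card ≤ Fintype.card A := Finset.card_le_univ _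
  rw [smul_eq_mul] at h2
  nlinarith

theorem remove (hN : 10 * Fintype.card A < N) (hS : StepL N F) :
    ∀ (n : ℕ) (s : List A) (μ : Multiset A), s.length = n → Multiset.card μ = N → Val μ s →
      ∃ μ1, Multiset.card μ1 = N ∧ Val μ1 [] ∧ μ1.toFinset = μ.toFinset ∧ F μ s = F μ1 [] := by
  intro n
  induction n with
  | zero =>
    intro s μ hs hμ hv
    have : s = [] := List.length_eq_zero_iff.1 hs
    subst this
    exact ⟨μ, hμ, hv, rfl, rfl⟩
  | succ n ih =>
    intro s μ hs hμ hv
    cases s with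
    | nil => simp at hs
    | cons w s' =>
      obtain ⟨z, hz⟩ := big hN μ hμ
      have hw1 : μ.count w = 1 := (hv.2 w).1 (by simp)
      have hwm : w ∈ μ := Multiset.count_pos.1 (by omega)
      have hwz : w ≠ z := by rintro rfl; omega
      have hnd := List.nodup_cons.1 hv.1
      have hvs' : Val (w ::ₘ μ.erase z) s' := by
        refine val_step (by omega) hwm hwz hnd.2 fun x => ?_
        rw [← hv.2 x]
        constructor
        · intro hx
          exact ⟨List.mem_cons_of_mem _ hx, by rintro rfl; exact hnd.1 hx⟩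
        · rintro ⟨hx, hne⟩
          exact (List.mem_cons.1 hx).resolve_left hne
      obtain ⟨s0, hs0, hF⟩ := hS μ (w :: s') z w hμ hv (by omega) hwm hwz (Or.inr ⟨s', rfl⟩)
      have hlen : s0.length = n := by
        rw [(val_perm hs0 hvs').length_eq]
        simpa using hs
      have hzm : z ∈ μ := Multiset.count_pos.1 (by omega)
      obtain ⟨μ1, h1, h2, h3, h4⟩ := ih s0 (w ::ₘ μ.erase z) hlen (by rw [card_step hzm, hμ]) hs0
      exact ⟨μ1, h1, h2, by rw [h3, toFinset_step (by omega) hwm hwz], by rw [hF, h4]⟩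

theorem stepNil (hS : StepL N F) (μ : Multiset A) (z w : A) (hμ : Multiset.card μ = N)
    (hv : Val μ []) (hz : 8 ≤ μ.count z) (hw : w ∈ μ) (hwz : w ≠ z) :
    F μ [] = F (w ::ₘ μ.erase z) [] := by
  obtain ⟨s0, hs0, hF⟩ := hS μ [] z w hμ hv hz hw hwz (Or.inl (by simp))
  have h1 : Val (w ::ₘ μ.erase z) [] :=
    val_step hz hw hwz List.nodup_nil fun x =>
      ⟨fun h => absurd h (by simp), fun h => absurd h.1 (val_nil.1 hv x)⟩
  have h2 := (val_perm hs0 h1).eq_nil
  rw [hF, h2]

theorem move (hN : 10 * Fintype.card A < N) (hS : StepL N F) (μ : Multiset A) (x y : A)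
    (hμ : Multiset.card μ = N) (hv : Val μ []) (hx : 3 ≤ μ.count x) (hy : y ∈ μ) (hxy : y ≠ x) :
    F μ [] = F (y ::ₘ μ.erase x) [] := by
  obtain ⟨z, hz⟩ := big hN μ hμ
  have hxm : x ∈ μ := Multiset.count_pos.1 (by omega)
  have hy0 : 0 < μ.count y := Multiset.count_pos.2 hy
  by_cases hzx : z = x
  · subst hzx
    exact stepNil hS μ z y hμ hv (by omega) hy hxy
  have hv2 : Val (y ::ₘ μ.erase x) [] := by
    refine val_nil.2 fun t => ?_
    rw [count_step μ x y t hxy]
    have := val_nil.1 hv t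
    split_ifs with h1 h2
    · omega
    · omega
    · exact this
  have hcard2 : Multiset.card (y ::ₘ μ.erase x) = N := by rw [card_step hxm, hμ]
  by_cases hzy : z = y
  · subst hzy
    have h := stepNil hS (z ::ₘ μ.erase x) z x hcard2 hv2
      (by rw [count_step μ x z z hxy]; simp; omega)
      (by
        rw [← Multiset.count_pos, count_step μ x z x hxy]
        rw [if_neg (Ne.symm hxy), if_pos rfl]
        omega) (Ne.symm hxy)
    rw [h, Multiset.erase_cons_head, Multiset.cons_erase hxm]
  · have h1 := stepNil hS μ z y hμ hv (by omega) hy (Ne.symm hzy)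
    have h2 := stepNil hS (y ::ₘ μ.erase x) z x hcard2 hv2
      (by rw [count_step μ x y z hxy, if_neg hzy, if_neg hzx]; omega)
      (by
        rw [← Multiset.count_pos, count_step μ x y x hxy]
        rw [if_neg (Ne.symm hxy), if_pos rfl]
        omega) (Ne.symm hzx)
    have e : x ::ₘ (y ::ₘ μ.erase x).erase z = y ::ₘ μ.erase z := by
      rw [Multiset.erase_cons_tail _ (Ne.symm hzy), Multiset.cons_swap, Multiset.erase_comm,
        Multiset.cons_erase ((Multiset.mem_erase_of_ne (Ne.symm hzx)).2 hxm)]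
    rw [h1, h2, e]

theorem connect (hN : 10 * Fintype.card A < N) (hS : StepL N F) :
    ∀ (n : ℕ) (μ ν : Multiset A), Multiset.card (μ - ν) = n → Multiset.card μ = N →
      Multiset.card ν = N → Val μ [] → Val ν [] → μ.toFinset = ν.toFinset → F μ [] = F ν [] := by
  intro n
  induction n with
  | zero =>
    intro μ ν hd hμ hν _ _ _
    have h1 : μ ≤ ν := tsub_eq_zero_iff_le.1 (Multiset.card_eq_zero.1 hd)
    rw [Multiset.eq_of_le_of_card_le h1 (by rw [hμ, hν])]
  | succ n ih =>
    intro μ ν hd hμ hν hvμ hvν hsup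
    obtain ⟨x, hx⟩ := Multiset.card_pos_iff_exists_mem.1 (show 0 < Multiset.card (μ - ν) by omega)
    have hx1 : ν.count x < μ.count x := by
      have := Multiset.count_pos.2 hx
      rw [Multiset.count_sub] at this
      omega
    have hmem : ∀ t, t ∈ μ ↔ t ∈ ν := fun t => by
      rw [← Multiset.mem_toFinset, hsup, Multiset.mem_toFinset]
    have hxν : 0 < ν.count x := Multiset.count_pos.2 ((hmem x).1 (Multiset.count_pos.1 (by omega)))
    have hx2 : ν.count x ≠ 1 := val_nil.1 hvν x
    obtain ⟨y, hy⟩ : ∃ y, μ.count y < ν.count y := by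
      by_contra hc
      push Not at hc
      have h1 : ν ≤ μ := Multiset.le_iff_count.2 hc
      have h2 := Multiset.eq_of_le_of_card_le h1 (by rw [hμ, hν])
      rw [h2] at hx1
      omega
    have hyx : y ≠ x := by rintro rfl; omega
    have hym : y ∈ μ := (hmem y).2 (Multiset.count_pos.1 (by omega))
    have hxm : x ∈ μ := Multiset.count_pos.1 (by omega)
    have hy0 : 0 < μ.count y := Multiset.count_pos.2 hym
    rw [move hN hS μ x y hμ hvμ (by omega) hym hyx]
    refine ih _ ν ?_ (by rw [card_step hxm, hμ]) hν ?_ hvν ?_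
    · have e : (y ::ₘ μ.erase x) - ν = (μ - ν).erase x := by
        ext t
        rw [Multiset.count_sub, count_step μ x y t hyx]
        by_cases h1 : t = x
        · subst h1
          rw [Multiset.count_erase_self, Multiset.count_sub, if_neg (Ne.symm hyx), if_pos rfl]
          omega
        · rw [Multiset.count_erase_of_ne h1, Multiset.count_sub]
          split_ifs with h2
          · subst h2; omega
          · rfl
      rw [e, Multiset.card_erase_of_mem hx, hd]
      rfl
    · refine val_nil.2 fun t => ?_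
      rw [count_step μ x y t hyx]
      have := val_nil.1 hvμ t
      split_ifs with h1 h2
      · omega
      · omega
      · exact this
    · rw [toFinset_step (by omega) hym hyx, hsup]

theorem concl (hN : 10 * Fintype.card A < N) (hS : StepL N F) (μ μ' : Multiset A) (s s' : List A)
    (hμ : Multiset.card μ = N) (hμ' : Multiset.card μ' = N) (hv : Val μ s) (hv' : Val μ' s')
    (hsup : μ.toFinset = μ'.toFinset) : F μ s = F μ' s' := by
  obtain ⟨μ1, a1, a2, a3, a4⟩ := remove hN hS _ s μ rfl hμ hv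
  obtain ⟨μ2, b1, b2, b3, b4⟩ := remove hN hS _ s' μ' rfl hμ' hv'
  rw [a4, b4]
  exact connect hN hS _ μ1 μ2 rfl a1 b1 a2 b2 (by rw [a3, b3, hsup])

end conclusion

section steps

variable {A B : Type} [DecidableEq A] [Fintype A] {N : ℕ} {F : Multiset A → List A → B}
  {g : (Fin N → A) → B}

theorem Dat.content {i j c : Fin N} {σ : List (Fin N)} (h : Dat F g i j c σ) (a : Fin N → A) :
    content a = a j ::ₘ a c ::ₘ (σ.map a : Multiset A) := by
  obtain ⟨hcj, hnd, hmem, -⟩ := h
  rw [content_eq_map a (j :: c :: σ)]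
  · rfl
  · rw [List.nodup_cons, List.nodup_cons]
    refine ⟨?_, ?_, hnd⟩
    · rw [List.mem_cons, not_or]
      exact ⟨Ne.symm hcj, fun hj => ((hmem j).1 hj).1 rfl⟩
    · exact fun hc => ((hmem c).1 hc).2 rfl
  · intro x
    rw [List.mem_cons, List.mem_cons, hmem]
    tauto

theorem Dat.length {i j c : Fin N} {σ : List (Fin N)} (h : Dat F g i j c σ) :
    σ.length + 2 = N := by
  obtain ⟨hcj, hnd, hmem, -⟩ := h
  have hp : (j :: c :: σ).Perm (List.finRange N) := by
    refine (List.perm_ext_iff_of_nodup ?_ (List.nodup_finRange N)).2 fun x => ?_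
    · rw [List.nodup_cons, List.nodup_cons]
      refine ⟨?_, ?_, hnd⟩
      · rw [List.mem_cons, not_or]
        exact ⟨Ne.symm hcj, fun hj => ((hmem j).1 hj).1 rfl⟩
      · exact fun hc => ((hmem c).1 hc).2 rfl
    · rw [List.mem_cons, List.mem_cons, hmem]
      simp
      tauto
  have := hp.length_eq
  rw [List.length_finRange] at this
  simpa using this

/-- second half: the data of a pair give the value at the multiset `ν`, whatever the order -/
theorem second {i j c : Fin N} {σ : List (Fin N)} (h : Dat F g i j c σ) (a : Fin N → A)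
    (haij : a i = a j) (ν : Multiset A) (hν : a c ::ₘ a c ::ₘ (σ.map a : Multiset A) = ν)
    (u : List (Fin N)) (hu : u.Nodup) (hj : j ∉ u) (hc : c ∉ u) (hval : Val ν (u.map a)) :
    ∃ s0, Val ν s0 ∧ g a = F ν s0 := by
  obtain ⟨hcj, hnd, hmem, hF⟩ := h
  have hp : (σ.filter (fun x => x ∈ u)).Perm u := by
    refine (List.perm_ext_iff_of_nodup (hnd.filter _) hu).2 fun x => ?_
    rw [List.mem_filter, hmem]
    simp only [decide_eq_true_eq]
    refine ⟨fun h => h.2, fun h => ⟨⟨?_, ?_⟩, h⟩⟩
    · rintro rfl; exact hj h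
    · rintro rfl; exact hc h
  have hv2 : Val ν ((σ.filter (fun x => x ∈ u)).map a) := hval.perm (hp.symm.map a)
  refine ⟨_, hv2, ?_⟩
  have := hF a haij _ List.filter_sublist (by rw [hν]; exact hv2)
  rwa [hν] at this

theorem split_s {s : List A} {w : A} (hs : s.Nodup) (h : w ∉ s ∨ ∃ s', s = w :: s') :
    ∃ s1 : List A, s1.Nodup ∧ (∀ x, x ∈ s1 ↔ x ∈ s ∧ x ≠ w) ∧
      ((w ∉ s ∧ s = s1) ∨ s = w :: s1) := by
  rcases h with h | ⟨s', rfl⟩
  · refine ⟨s, hs, fun x => ⟨fun hx => ⟨hx, ?_⟩, fun hx => hx.1⟩, Or.inl ⟨h, rfl⟩⟩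
    rintro rfl; exact h hx
  · have hn := List.nodup_cons.1 hs
    refine ⟨s', hn.2, fun x => ⟨fun hx => ⟨List.mem_cons_of_mem _ hx, ?_⟩, fun hx => ?_⟩,
      Or.inr rfl⟩
    · rintro rfl; exact hn.1 hx
    · exact (List.mem_cons.1 hx.1).resolve_left hx.2

theorem count_rep (Z : List (Fin N)) (z x : A) :
    (Z.map (fun _ => z)).count x = if x = z then Z.length else 0 := by
  rw [List.map_const', List.count_replicate]
  by_cases h : x = z
  · simp [h]
  · rw [if_neg h, if_neg]
    simpa using Ne.symm h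

theorem count_s1 {s1 : List A} (hn : s1.Nodup) (x : A) :
    s1.count x = if x ∈ s1 then 1 else 0 := by
  split_ifs with h
  · exact List.count_eq_one_of_mem hn h
  · exact List.count_eq_zero_of_not_mem h

/-- Case A. -/
theorem caseA {i0 j0 c0 i j c : Fin N} {σ0 σ l r : List (Fin N)} (h0 : Dat F g i0 j0 c0 σ0)
    (hc0i : c0 ≠ i0) (h : Dat F g i j c σ)
    (hi : i ≠ c0) (hj : j ≠ c0) (hc : c ≠ c0) (hσ : σ = l ++ c0 :: r)
    (hlen : Fintype.card A ≤ (r.filter (fun x => x ∉ [i0, j0, i, j, c])).length) :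
    StepL N F := by
  intro μ s z w hμ hv hz hw hwz hws
  obtain ⟨s1, hs1, hs1m, hcase⟩ := split_s hv.1 hws
  have hzs : z ∉ s := fun h => by have := (hv.2 z).1 h; omega
  have hzs1 : z ∉ s1 := fun h => hzs ((hs1m z).1 h).1
  have hws1 : w ∉ s1 := fun h => ((hs1m w).1 h).2 rfl
  set Z := ([i0, j0, i, j, c] : List (Fin N)).dedup with hZ
  set R := r.filter (fun x => x ∉ [i0, j0, i, j, c]) with hR
  set u := R.take s1.length with hu
  have hs1len : s1.length ≤ Fintype.card A := List.Nodup.length_le_card hs1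
  have hulen : u.length = s1.length := by
    rw [hu, List.length_take, min_eq_left (hs1len.trans hlen)]
  have hndσ := h.2.1
  rw [hσ] at hndσ
  have hndcr : (c0 :: r).Nodup := (List.nodup_append.1 hndσ).2.1
  have hndr := (List.nodup_cons.1 hndcr)
  have husub : u.Sublist r := (List.take_sublist _ _).trans List.filter_sublist
  have hund : u.Nodup := hndr.2.sublist husub
  have huR : ∀ x ∈ u, x ∉ [i0, j0, i, j, c] := fun x hx => by
    have := (List.mem_filter.1 ((List.take_sublist _ _).subset hx)).2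
    simpa using this
  have hc0u : c0 ∉ u := fun hx => hndr.1 (husub.subset hx)
  have hc0Z : c0 ∉ Z := by
    rw [hZ, List.mem_dedup]
    simp only [List.mem_cons, List.not_mem_nil, or_false, not_or]
    exact ⟨hc0i, h0.1, Ne.symm hi, Ne.symm hj, Ne.symm hc⟩
  have hvnd : (Z ++ c0 :: u).Nodup := by
    rw [List.nodup_append]
    refine ⟨List.nodup_dedup _, List.nodup_cons.2 ⟨hc0u, hund⟩, ?_⟩
    rintro x hx _ hy rfl
    rcases List.mem_cons.1 hy with rfl | hy
    · exact hc0Z hx
    · exact huR x hy (List.mem_dedup.1 hx)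
  have hZlen : Z.length ≤ 5 := (List.dedup_sublist _).length_le
  have hle : ((Z.map (fun _ => z) ++ w :: s1 : List A) : Multiset A) ≤ μ := by
    rw [Multiset.le_iff_count]
    intro x
    rw [Multiset.coe_count, List.count_append, List.count_cons, count_rep, count_s1 hs1]
    have hw' : 0 < μ.count w := Multiset.count_pos.2 hw
    by_cases hxz : x = z
    · subst hxz
      rw [if_pos rfl, if_neg hzs1, if_neg (by simpa using hwz)]
      omega
    · rw [if_neg hxz]
      by_cases hxw : x = w
      · subst hxw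
        rw [if_neg hws1]
        simp
        omega
      · rw [show (w == x) = false by simpa using Ne.symm hxw]
        simp only [Bool.false_eq_true, if_false]
        split_ifs with hx
        · have := (hv.2 x).1 ((hs1m x).1 hx).1
          omega
        · omega
  obtain ⟨a, ha, hmap⟩ := t_FILL A N (Z ++ c0 :: u) (Z.map (fun _ => z) ++ w :: s1) μ hμ hvnd
    (by simp [hulen]) hle
  rw [List.map_append, List.map_cons] at hmap
  obtain ⟨e1, e2⟩ := List.append_inj hmap (by simp)
  have e3 : a c0 = w := (List.cons.inj e2).1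
  have e4 : u.map a = s1 := (List.cons.inj e2).2
  have haZ : ∀ x ∈ ([i0, j0, i, j, c] : List (Fin N)), a x = z := fun x hx =>
    (List.map_inj_left.1 e1) x (List.mem_dedup.2 hx)
  have ai0 : a i0 = z := haZ i0 (by simp)
  have aj0 : a j0 = z := haZ j0 (by simp)
  have ai : a i = z := haZ i (by simp)
  have aj : a j = z := haZ j (by simp)
  have ac : a c = z := haZ c (by simp)
  -- data of the pair `i, j`
  have hcont := Dat.content h a
  rw [ha, aj] at hcont
  have hm1 : a c ::ₘ a c ::ₘ (σ.map a : Multiset A) = μ := by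
    rw [hcont, ac]
  have hg1 : g a = F μ s := by
    have key : ∃ uu : List (Fin N), uu.Sublist σ ∧ uu.map a = s := by
      rcases hcase with ⟨_, rfl⟩ | rfl
      · exact ⟨u, by
          rw [hσ]
          exact (husub.trans (List.sublist_cons_self _ _)).trans (List.sublist_append_right _ _),
          e4⟩
      · exact ⟨c0 :: u, by
          rw [hσ]
          exact (husub.cons_cons c0).trans (List.sublist_append_right _ _), by
          rw [List.map_cons, e3, e4]⟩
    obtain ⟨uu, h1, h2⟩ := key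
    have := h.2.2.2 a (by rw [ai, aj]) uu h1 (by rw [hm1, h2]; exact hv)
    rwa [hm1, h2] at this
  -- data of the pair `i0, j0`
  have hcont0 := Dat.content h0 a
  rw [ha, aj0, e3] at hcont0
  have hm0 : a c0 ::ₘ a c0 ::ₘ (σ0.map a : Multiset A) = w ::ₘ μ.erase z := by
    rw [hcont0, Multiset.erase_cons_head, e3]
  have hval1 : Val (w ::ₘ μ.erase z) s1 :=
    val_step hz hw hwz hs1 fun x => by rw [hs1m x, hv.2 x]
  obtain ⟨s0, hs0, hg0⟩ := second h0 a (by rw [ai0, aj0]) _ hm0 u hund
    (fun hx => huR j0 hx (by simp)) hc0u (by rw [e4]; exact hval1)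
  exact ⟨s0, hs0, by rw [← hg1, hg0]⟩

/-- Case B. -/
theorem caseB {i1 j1 i2 j2 c : Fin N} {σ1 σ2 l r : List (Fin N)} (h1 : Dat F g i1 j1 c σ1)
    (h2 : Dat F g i2 j2 c σ2) (hnd : ([i1, j1, i2, j2, c] : List (Fin N)).Nodup)
    (hσ : σ1 = l ++ i1 :: r)
    (hlen : Fintype.card A ≤ (r.filter (fun x => x ∉ [i1, j1, i2, j2, c])).length) :
    StepL N F := by
  intro μ s z w hμ hv hz hw hwz hws
  obtain ⟨s1, hs1, hs1m, hcase⟩ := split_s hv.1 hws
  have hzs : z ∉ s := fun h => by have := (hv.2 z).1 h; omega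
  have hzs1 : z ∉ s1 := fun h => hzs ((hs1m z).1 h).1
  have hws1 : w ∉ s1 := fun h => ((hs1m w).1 h).2 rfl
  have hzm : z ∈ μ := Multiset.count_pos.1 (by omega)
  set R := r.filter (fun x => x ∉ [i1, j1, i2, j2, c]) with hR
  set u := R.take s1.length with hu
  have hs1len : s1.length ≤ Fintype.card A := List.Nodup.length_le_card hs1
  have hulen : u.length = s1.length := by
    rw [hu, List.length_take, min_eq_left (hs1len.trans hlen)]
  have hndσ := h1.2.1
  rw [hσ] at hndσ
  have hndcr : (i1 :: r).Nodup := (List.nodup_append.1 hndσ).2.1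
  have hndr := (List.nodup_cons.1 hndcr)
  have husub : u.Sublist r := (List.take_sublist _ _).trans List.filter_sublist
  have hund : u.Nodup := hndr.2.sublist husub
  have huR : ∀ x ∈ u, x ∉ [i1, j1, i2, j2, c] := fun x hx => by
    have := (List.mem_filter.1 ((List.take_sublist _ _).subset hx)).2
    simpa using this
  have hvnd : ([i1, j1, i2, j2, c] ++ u).Nodup := by
    rw [List.nodup_append]
    refine ⟨hnd, hund, ?_⟩
    rintro x hx _ hy rfl
    exact huR x hy hx
  have hval1 : Val (w ::ₘ μ.erase z) s1 :=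
    val_step hz hw hwz hs1 fun x => by rw [hs1m x, hv.2 x]
  have hle : (([w, w, z, z, z] ++ s1 : List A) : Multiset A) ≤ w ::ₘ μ.erase z := by
    rw [Multiset.le_iff_count]
    intro x
    rw [Multiset.coe_count, List.count_append, count_s1 hs1, count_step μ z w x hwz]
    have hw' : 0 < μ.count w := Multiset.count_pos.2 hw
    by_cases hxz : x = z
    · subst hxz
      rw [if_neg hzs1, if_neg (Ne.symm hwz), if_pos rfl]
      simp [hwz]
      omega
    · by_cases hxw : x = w
      · subst hxw
        rw [if_neg hws1, if_pos rfl]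
        simp [Ne.symm hxz]
        omega
      · rw [if_neg hxw, if_neg hxz]
        simp only [List.count_cons, List.count_nil, beq_iff_eq, Ne.symm hxw, Ne.symm hxz, if_false]
        split_ifs with hx
        · have := (hv.2 x).1 ((hs1m x).1 hx).1
          omega
        · omega
  obtain ⟨a, ha, hmap⟩ := t_FILL A N ([i1, j1, i2, j2, c] ++ u) ([w, w, z, z, z] ++ s1)
    (w ::ₘ μ.erase z) (by rw [card_step hzm, hμ]) hvnd (by simp [hulen]) hle
  rw [List.map_append] at hmap
  obtain ⟨e1, e4⟩ := List.append_inj hmap (by simp)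
  simp only [List.map_cons, List.map_nil, List.cons.injEq, and_true] at e1
  obtain ⟨ai1, aj1, ai2, aj2, ac⟩ := e1
  -- data of the first pair
  have hcont1 := Dat.content h1 a
  rw [ha, aj1, ac] at hcont1
  have hcont1' := (Multiset.cons_inj_right _).1 hcont1
  have hm1 : a c ::ₘ a c ::ₘ (σ1.map a : Multiset A) = μ := by
    rw [ac, ← hcont1', Multiset.cons_erase hzm]
  have hg1 : g a = F μ s := by
    have key : ∃ uu : List (Fin N), uu.Sublist σ1 ∧ uu.map a = s := by
      rcases hcase with ⟨_, rfl⟩ | rfl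
      · exact ⟨u, by
          rw [hσ]
          exact (husub.trans (List.sublist_cons_self _ _)).trans (List.sublist_append_right _ _),
          e4⟩
      · exact ⟨i1 :: u, by
          rw [hσ]
          exact (husub.cons_cons i1).trans (List.sublist_append_right _ _), by
          rw [List.map_cons, ai1, e4]⟩
    obtain ⟨uu, k1, k2⟩ := key
    have := h1.2.2.2 a (by rw [ai1, aj1]) uu k1 (by rw [hm1, k2]; exact hv)
    rwa [hm1, k2] at this
  -- data of the second pair
  have hcont2 := Dat.content h2 a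
  rw [ha, aj2, ac] at hcont2
  have hm2 : a c ::ₘ a c ::ₘ (σ2.map a : Multiset A) = w ::ₘ μ.erase z := by
    rw [ac, ← hcont2]
  obtain ⟨s0, hs0, hg0⟩ := second h2 a (by rw [ai2, aj2]) _ hm2 u hund
    (fun hx => huR j2 hx (by simp)) (fun hx => huR c hx (by simp)) (by rw [e4]; exact hval1)
  exact ⟨s0, hs0, by rw [← hg1, hg0]⟩

/-- the reversed function -/
def Rv (F : Multiset A → List A → B) : Multiset A → List A → B := fun μ s => F μ s.reverse

theorem Dat.rv {i j c : Fin N} {σ : List (Fin N)} (h : Dat F g i j c σ) :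
    Dat (Rv F) g i j c σ.reverse := by
  obtain ⟨h1, h2, h3, h4⟩ := h
  refine ⟨h1, List.nodup_reverse.2 h2, fun x => by rw [List.mem_reverse, h3], ?_⟩
  intro a ha u hu hval
  have e : ((σ.reverse.map a : List A) : Multiset A) = (σ.map a : Multiset A) :=
    Multiset.coe_eq_coe.2 ((List.reverse_perm σ).map a)
  rw [e] at hval ⊢
  have h5 : u.reverse.Sublist σ := by
    have := List.reverse_sublist.2 hu
    rwa [List.reverse_reverse] at this
  have := h4 a ha u.reverse h5 (hval.perm ((List.reverse_perm u).symm.map a))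
  rw [this]
  show _ = F _ (u.map a).reverse
  rw [List.map_reverse]

theorem length_filter_ge {P : Type} [DecidableEq P] (m : List P) (hm : m.Nodup) (S : List P) :
    m.length ≤ (m.filter (fun x => x ∉ S)).length + S.length := by
  have h1 : (m.filter (fun x => x ∈ S)).length ≤ S.length := by
    rw [← List.toFinset_card_of_nodup (hm.filter _)]
    refine (Finset.card_le_card (t := S.toFinset) fun x hx => ?_).trans (List.toFinset_card_le S)
    rw [List.mem_toFinset]
    simpa using (List.mem_filter.1 (List.mem_toFinset.1 hx)).2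
  have h2 := List.length_eq_length_filter_add (l := m) (fun x => decide (x ∈ S))
  have h3 : (m.filter (fun x => !decide (x ∈ S))) = m.filter (fun x => x ∉ S) := by
    congr 1
    ext x
    simp
  rw [h3] at h2
  omega

/-- one of the two sides of an element of a long list is long -/
theorem sides {i j c e : Fin N} {σ : List (Fin N)} (h : Dat F g i j c σ) (he : e ∈ σ)
    (S : List (Fin N)) (hS : S.length ≤ 5) (k : ℕ) (hN : 2 * k + 14 ≤ N) :
    ∃ l r : List (Fin N), σ = l ++ e :: r ∧
      (k ≤ (r.filter (fun x => x ∉ S)).length ∨ k ≤ (l.reverse.filter (fun x => x ∉ S)).length) := by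
  obtain ⟨l, r, hσ⟩ := List.append_of_mem he
  refine ⟨l, r, hσ, ?_⟩
  have hlen := Dat.length h
  have hnd := h.2.1
  rw [hσ] at hlen hnd
  rw [List.length_append, List.length_cons] at hlen
  have hl : l.Nodup := (List.nodup_append.1 hnd).1
  have hr : r.Nodup := (List.nodup_cons.1 (List.nodup_append.1 hnd).2.1).2
  have h1 := length_filter_ge r hr S
  have h2 := length_filter_ge l.reverse (List.nodup_reverse.2 hl) S
  rw [List.length_reverse] at h2
  omega

theorem step (hN : 2 * Fintype.card A + 14 ≤ N)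
    (hall : ∀ i j : Fin N, i < j → ∃ c σ, Dat F g i j c σ)
    (hbad : ∃ i j c : Fin N, ∃ σ, i < j ∧ c ≠ i ∧ Dat F g i j c σ) :
    StepL N F ∨ StepL N (Rv F) := by
  classical
  obtain ⟨i0, j0, c0, σ0, hij0, hci0, h0⟩ := hbad
  by_cases hA : ∃ i j c : Fin N, ∃ σ, i ≠ c0 ∧ j ≠ c0 ∧ c ≠ c0 ∧ Dat F g i j c σ
  · obtain ⟨i, j, c, σ, hi, hj, hc, h⟩ := hA
    have he : c0 ∈ σ := (h.2.2.1 c0).2 ⟨Ne.symm hj, Ne.symm hc⟩
    obtain ⟨l, r, hσ, hs | hs⟩ := sides h he [i0, j0, i, j, c] (by simp) (Fintype.card A) hN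
    · exact Or.inl (caseA h0 hci0 h hi hj hc hσ hs)
    · exact Or.inr (caseA (Dat.rv h0) hci0 (Dat.rv h) hi hj hc (l := r.reverse) (r := l.reverse)
        (by rw [hσ]; simp) hs)
  · have hB : ∀ x y : Fin N, x ≠ y → x ≠ c0 → y ≠ c0 → ∃ i j : Fin N, ∃ σ,
        ((i = x ∧ j = y) ∨ (i = y ∧ j = x)) ∧ Dat F g i j c0 σ := by
      intro x y hxy hx hy
      have key : ∀ i j : Fin N, i < j → i ≠ c0 → j ≠ c0 → ∃ σ, Dat F g i j c0 σ := by
        intro i j hij hi hj
        obtain ⟨c, σ, h⟩ := hall i j hij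
        by_cases hc : c = c0
        · subst hc; exact ⟨σ, h⟩
        · exact absurd ⟨i, j, c, σ, hi, hj, hc, h⟩ hA
      rcases lt_or_gt_of_ne hxy with h | h
      · obtain ⟨σ, hσ⟩ := key x y h hx hy
        exact ⟨x, y, σ, Or.inl ⟨rfl, rfl⟩, hσ⟩
      · obtain ⟨σ, hσ⟩ := key y x h hy hx
        exact ⟨y, x, σ, Or.inr ⟨rfl, rfl⟩, hσ⟩
    obtain ⟨T, hT, hcard⟩ := Finset.exists_subset_card_eq
      (s := (Finset.univ : Finset (Fin N)).erase c0) (n := 4) (by
        rw [Finset.card_erase_of_mem (Finset.mem_univ _), Finset.card_univ, Fintype.card_fin]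
        omega)
    set e := (T.equivFinOfCardEq hcard).symm with he
    have hne : ∀ p q : Fin 4, p ≠ q → (e p : Fin N) ≠ e q := fun p q hpq h =>
      hpq (e.injective (Subtype.ext h))
    have hc0 : ∀ p : Fin 4, (e p : Fin N) ≠ c0 := fun p => (Finset.mem_erase.1 (hT (e p).2)).1
    obtain ⟨i1, j1, σ1, hd1, h1⟩ := hB (e 0) (e 1) (hne _ _ (by decide)) (hc0 0) (hc0 1)
    obtain ⟨i2, j2, σ2, hd2, h2⟩ := hB (e 2) (e 3) (hne _ _ (by decide)) (hc0 2) (hc0 3)
    have hnd : ([i1, j1, i2, j2, c0] : List (Fin N)).Nodup := by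
      have n01 := hne 0 1 (by decide)
      have n02 := hne 0 2 (by decide)
      have n03 := hne 0 3 (by decide)
      have n12 := hne 1 2 (by decide)
      have n13 := hne 1 3 (by decide)
      have n23 := hne 2 3 (by decide)
      have c0' := hc0 0
      have c1' := hc0 1
      have c2' := hc0 2
      have c3' := hc0 3
      rcases hd1 with ⟨rfl, rfl⟩ | ⟨rfl, rfl⟩ <;> rcases hd2 with ⟨rfl, rfl⟩ | ⟨rfl, rfl⟩ <;>
        simp only [List.nodup_cons, List.mem_cons, List.not_mem_nil, or_false, not_or,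
          List.nodup_nil, and_true, not_false_eq_true] <;>
        refine ⟨⟨?_, ?_, ?_, ?_⟩, ⟨?_, ?_, ?_⟩, ⟨?_, ?_⟩, ?_⟩ <;>
        first | assumption | (apply Ne.symm; assumption)
    have hi1 : i1 ≠ j1 ∧ i1 ≠ c0 := by
      simp only [List.nodup_cons, List.mem_cons, not_or] at hnd
      exact ⟨hnd.1.1, hnd.1.2.2.2.1⟩
    have hm : i1 ∈ σ1 := (h1.2.2.1 i1).2 hi1
    obtain ⟨l, r, hσ, hs | hs⟩ := sides h1 hm [i1, j1, i2, j2, c0] (by simp) (Fintype.card A) hN
    · exact Or.inl (caseB h1 h2 hnd hσ hs)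
    · exact Or.inr (caseB (Dat.rv h1) (Dat.rv h2) hnd (l := r.reverse) (r := l.reverse)
        (by rw [hσ]; simp) hs)

end steps

theorem t_BAD : S_BAD := by
  intro k
  refine ⟨10 * k + 20, ?_⟩
  intro A B _ _ hk N F g hN hall hbad μ μ' s s' hμ hμ' hv hv' hsup
  have hN1 : 2 * Fintype.card A + 14 ≤ N := by omega
  have hN2 : 10 * Fintype.card A < N := by omega
  rcases step hN1 hall hbad with h | h
  · exact concl hN2 h μ μ' s s' hμ hμ' hv hv' hsup
  · have := concl hN2 h μ μ' s.reverse s'.reverse hμ hμ' (hv.perm (List.reverse_perm s).symm)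
      (hv'.perm (List.reverse_perm s').symm) hsup
    simpa [Rv] using this

end Pool.Agent.U875.RC.Bad
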