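import Pool.Agent.U705.RC.Fill

/-!
# Project RC, package GLUE
-/

open Pool.Agent.R795.Min Pool.Agent.U705.RC

namespace Pool.Agent.U875.RC

theorem avoid {P : Type} [DecidableEq P] {n : ℕ} (I : Fin n → Finset P)
    (hd : ∀ i j, i ≠ j → Disjoint (I i) (I j)) (u : List P) (hu : u.length < n) :
    ∃ i, ∀ x ∈ u, x ∉ I i := by
  by_contra hc
  push Not at hc
  choose f hf hfI using hc
  have hinj : Function.Injective f := by
    intro i j hij
    by_contra hne
    have h1 := hfI i
    have h2 := hfI j
    rw [← hij] at h2
    exact (Finset.disjoint_left.1 (hd i j hne)) h1 h2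
  have hcard : (Finset.univ.image f).card = n := by
    rw [Finset.card_image_of_injective _ hinj, Finset.card_univ, Fintype.card_fin]
  have hsub : Finset.univ.image f ⊆ u.toFinset := by
    intro x hx
    obtain ⟨i, _, rfl⟩ := Finset.mem_image.1 hx
    exact List.mem_toFinset.2 (hf i)
  have h3 := Finset.card_le_card hsub
  have h4 := List.toFinset_card_le u
  omega

theorem filter_perm {P : Type} [DecidableEq P] {l l' u : List P} (hl : l.Nodup) (hp : l'.Perm l)
    (hu : u.Sublist l') : (l.filter (fun x => x ∈ u)).Perm u := by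
  have hl' : l'.Nodup := hp.nodup_iff.2 hl
  refine (List.perm_ext_iff_of_nodup (hl.filter _) (hl'.sublist hu)).2 fun x => ?_
  rw [List.mem_filter]
  simp only [decide_eq_true_eq]
  exact ⟨fun h => h.2, fun h => ⟨hp.mem_iff.1 (hu.subset h), h⟩⟩

theorem length_filter_ge {P : Type} [DecidableEq P] (m : List P) (hm : m.Nodup) (S : Finset P) :
    m.length ≤ (m.filter (fun x => x ∉ S)).length + S.card := by
  have h1 : (m.filter (fun x => x ∈ S)).length ≤ S.card := by
    rw [← List.toFinset_card_of_nodup (hm.filter _)]
    refine Finset.card_le_card fun x hx => ?_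
    simpa using (List.mem_filter.1 (List.mem_toFinset.1 hx)).2
  have h2 := List.length_eq_length_filter_add (l := m) (fun x => decide (x ∈ S))
  have h3 : (m.filter (fun x => !decide (x ∈ S))) = m.filter (fun x => x ∉ S) := by
    congr 1
    ext x
    simp
  rw [h3] at h2
  omega

theorem card_content {A : Type} {N : ℕ} (a : Fin N → A) : Multiset.card (content a) = N := by
  simp [content]

theorem t_GLUE (hM : S_MERGE) : S_GLUE := by
  classical
  intro A B _ _ N F g I l m r hI hdisj hnd hmem hCh hl hr hm hlen
  have hndm : ∀ i, (m i).Nodup := fun i =>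
    (List.nodup_append.1 (List.nodup_append.1 (hnd i)).1).2.1
  have hndl : ∀ i, (l i).Nodup := fun i =>
    (List.nodup_append.1 (List.nodup_append.1 (hnd i)).1).1
  have hndr : ∀ i, (r i).Nodup := fun i => (List.nodup_append.1 (hnd i)).2.1
  have hlm : ∀ i x, x ∈ l i → x ∈ m i → False := fun i x h1 h2 =>
    (List.nodup_append.1 (List.nodup_append.1 (hnd i)).1).2.2 x h1 x h2 rfl
  have hmr : ∀ i x, x ∈ m i → x ∈ r i → False := fun i x h1 h2 =>
    (List.nodup_append.1 (hnd i)).2.2 x (List.mem_append_right _ h1) x h2 rfl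
  have hlr : ∀ i x, x ∈ l i → x ∈ r i → False := fun i x h1 h2 =>
    (List.nodup_append.1 (hnd i)).2.2 x (List.mem_append_left _ h1) x h2 rfl
  have hmI : ∀ i, ∀ x ∈ m i, x ∉ I i := fun i x hx =>
    (hmem i x).1 (List.mem_append_left _ (List.mem_append_right _ hx))
  obtain ⟨M, hMnd, hMf⟩ := hM (Fin N) (Fintype.card A + 4) (by omega) I m hdisj hndm hmI hm
  have hone : ∀ x : Fin N, ∃ i, x ∉ I i := by
    intro x
    obtain ⟨i, hi⟩ := avoid I hdisj [x] (by simp)
    exact ⟨i, hi x (by simp)⟩
  have hMm : ∀ i x, x ∉ I i → (x ∈ M ↔ x ∈ m i) := by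
    intro i x hx
    rw [← hMf i, List.mem_filter]
    simp [hx]
  set i0 : Fin (Fintype.card A + 4) := ⟨0, by omega⟩ with hi0
  refine ⟨l i0 ++ M ++ r i0, ?_, ?_, ?_⟩
  · rw [List.nodup_append, List.nodup_append]
    refine ⟨⟨hndl i0, hMnd, ?_⟩, hndr i0, ?_⟩
    · rintro x hx _ hy rfl
      obtain ⟨i, hi⟩ := hone x
      exact hlm i x ((hl i0 i).mem_iff.1 hx) ((hMm i x hi).1 hy)
    · rintro x hx _ hy rfl
      rcases List.mem_append.1 hx with hx | hx
      · exact hlr i0 x hx hy
      · obtain ⟨i, hi⟩ := hone x
        exact hmr i x ((hMm i x hi).1 hx) ((hr i0 i).mem_iff.1 hy)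
  · intro x
    obtain ⟨i, hi⟩ := hone x
    rcases List.mem_append.1 ((hmem i x).2 hi) with h | h
    · rcases List.mem_append.1 h with h | h
      · exact List.mem_append_left _ (List.mem_append_left _ ((hl i i0).mem_iff.1 h))
      · exact List.mem_append_left _ (List.mem_append_right _ ((hMm i x hi).2 h))
    · exact List.mem_append_right _ ((hr i i0).mem_iff.1 h)
  · intro a u hu hval
    have hul : u.length ≤ Fintype.card A := by simpa using hval.length_le
    obtain ⟨u12, u3, rfl, hu12, hu3⟩ := List.sublist_append_iff.1 hu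
    obtain ⟨u1, u2, rfl, hu1, hu2⟩ := List.sublist_append_iff.1 hu12
    obtain ⟨i, hi⟩ := avoid I hdisj (u1 ++ u2 ++ u3) (by omega)
    have hu2m : u2.Sublist (m i) := by
      rw [← hMf i]
      have h1 := hu2.filter (fun x => decide (x ∉ I i))
      rwa [List.filter_eq_self.2 (fun x hx => by
        simpa using hi x (List.mem_append_left _ (List.mem_append_right _ hx)))] at h1
    set u1' := (l i).filter (fun x => x ∈ u1) with hu1'
    set u3' := (r i).filter (fun x => x ∈ u3) with hu3'
    have hp1 : u1'.Perm u1 := filter_perm (hndl i) (hl i0 i) hu1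
    have hp3 : u3'.Perm u3 := filter_perm (hndr i) (hr i0 i) hu3
    set v2 := ((m i).filter (fun x => x ∉ I i0)).take u2.length with hv2
    have hv2len : v2.length = u2.length := by
      rw [hv2, List.length_take, min_eq_left]
      have h1 := length_filter_ge (m i) (hndm i) (I i0)
      rw [hI i0] at h1
      have h2 := hlen i
      have h3 : u2.length ≤ (u1 ++ u2 ++ u3).length := by simp; omega
      omega
    have hv2i : v2.Sublist (m i) := (List.take_sublist _ _).trans List.filter_sublist
    have hv20 : v2.Sublist (m i0) := by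
      by_cases h : i = i0
      · rw [← h]; exact hv2i
      · rw [hv2, hm i i0 h]
        exact (List.take_sublist _ _).trans List.filter_sublist
    have hvsub : (u1 ++ v2 ++ u3).Sublist (l i0 ++ m i0 ++ r i0) := (hu1.append hv20).append hu3
    obtain ⟨a', ha', hmap⟩ := t_FILL A N (u1 ++ v2 ++ u3) ((u1 ++ u2 ++ u3).map a) (content a)
      (card_content a) ((hnd i0).sublist hvsub) (by simp [hv2len]) hval.le
    have hmap' := hmap
    rw [List.map_append, List.map_append, List.map_append, List.map_append] at hmap'
    obtain ⟨h12, h3⟩ := List.append_inj hmap' (by simp [hv2len])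
    obtain ⟨h1, h2⟩ := List.append_inj h12 (by simp)
    have h1' : u1'.map a' = u1'.map a := by
      apply List.map_congr_left
      intro x hx
      exact (List.map_inj_left.1 h1) x (hp1.mem_iff.1 hx)
    have h3' : u3'.map a' = u3'.map a := by
      apply List.map_congr_left
      intro x hx
      exact (List.map_inj_left.1 h3) x (hp3.mem_iff.1 hx)
    have hval' : Val (content a) ((u1' ++ u2 ++ u3').map a) :=
      hval.perm ((((hp1.symm.append_right u2)).append hp3.symm).map a)
    have e0 := hCh i0 a' (u1 ++ v2 ++ u3) hvsub (by rw [ha', hmap]; exact hval)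
    have e1 := hCh i a' (u1' ++ v2 ++ u3')
      ((List.filter_sublist.append hv2i).append List.filter_sublist) (by
        rw [ha', List.map_append, List.map_append, h1', h2, h3', ← List.map_append,
          ← List.map_append]
        exact hval')
    have e2 := hCh i a (u1' ++ u2 ++ u3')
      ((List.filter_sublist.append hu2m).append List.filter_sublist) hval'
    rw [ha', hmap] at e0
    rw [ha', List.map_append, List.map_append, h1', h2, h3', ← List.map_append,
      ← List.map_append] at e1
    rw [e2, ← e1, e0]

end Pool.Agent.U875.RC
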